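import Mathlib

set_option autoImplicit false

/-!
# A graph property whose dual problem does not reduce to tolerant testing

Let `N = C(v,2)`, `d_k = ⌊N / 2^k⌋` and `c_k = N - 4 d_k`. The property consists of the graphs whose
number of edges has distance at least `d_k - 1` from `c_k`, for all `k ≥ 3`. For `δ = 2^{-k} N`, a
graph that is `δ`-far from the property has its number of edges in the gap around some `c_j`, `j < k`,
and at distance at least `δ` from the ends of this gap; so the graphs with `c_k` edges, which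
have distance at least `d_k - 1` from the property, are `δ`-far from all such graphs.
-/

namespace Pool.Agent.Results.MP_cccbef_lc.DualNotTolerant

/-- The edge distance of two graphs on the vertex set `Fin v`. -/
noncomputable def dist {v : ℕ} (G H : SimpleGraph (Fin v)) : ℕ :=
  (symmDiff G.edgeSet H.edgeSet).ncard

/-- The graphs that are `δ`-far from the set `S` (all graphs if `S` is empty). -/
def Far {v : ℕ} (δ : ℝ) (S : Set (SimpleGraph (Fin v))) : Set (SimpleGraph (Fin v)) :=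
  {G | ∀ H ∈ S, δ ≤ (dist G H : ℝ)}

/-- The graphs at distance at most `r` from the set `S`. -/
def Near {v : ℕ} (r : ℝ) (S : Set (SimpleGraph (Fin v))) : Set (SimpleGraph (Fin v)) :=
  {G | ∃ H ∈ S, (dist G H : ℝ) ≤ r}

/-- Graph properties: sequences of sets of graphs that are closed under isomorphism. -/
def IsProperty (P : ∀ v : ℕ, Set (SimpleGraph (Fin v))) : Prop :=
  ∀ (v : ℕ) (G H : SimpleGraph (Fin v)), Nonempty (G ≃g H) → G ∈ P v → H ∈ P v

/-- The dual problem of `P` reduces to tolerant testing. -/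
def DualReducesToTolerant (P : ∀ v : ℕ, Set (SimpleGraph (Fin v))) : Prop :=
  ∃ ε₀ : ℝ, 0 < ε₀ ∧ ∀ ε : ℝ, 0 < ε → ε ≤ ε₀ → ∃ α : ℝ, α < 1 ∧ ∃ v₀ : ℕ, ∀ v ≥ v₀,
    Far (ε * (v.choose 2 : ℝ)) (Far (ε * (v.choose 2 : ℝ)) (P v)) ⊆
      Near (α * (ε * (v.choose 2 : ℝ))) (P v)

/-! ### The number of edges -/

/-- The number of edges. -/
noncomputable def edges {v : ℕ} (G : SimpleGraph (Fin v)) : ℕ := G.edgeSet.ncard

theorem edges_top (v : ℕ) : edges (⊤ : SimpleGraph (Fin v)) = v.choose 2 := by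
  classical
  unfold edges
  rw [Set.ncard_eq_toFinset_card']
  have := SimpleGraph.card_edgeFinset_top_eq_card_choose_two (V := Fin v)
  rw [Fintype.card_fin] at this
  rw [← this]
  congr 1

theorem edges_le {v : ℕ} (G : SimpleGraph (Fin v)) : edges G ≤ v.choose 2 := by
  rw [← edges_top]
  unfold edges
  exact Set.ncard_le_ncard (SimpleGraph.edgeSet_mono le_top) (Set.toFinite _)

theorem edges_iso {v : ℕ} {G H : SimpleGraph (Fin v)} (h : Nonempty (G ≃g H)) :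
    edges G = edges H := by
  obtain ⟨f⟩ := h
  unfold edges
  rw [← Nat.card_coe_set_eq, ← Nat.card_coe_set_eq]
  exact Nat.card_congr f.mapEdgeSet

theorem sub_le_dist {v : ℕ} (G H : SimpleGraph (Fin v)) :
    |(edges G : ℤ) - edges H| ≤ dist G H := by
  have h1 : ∀ A B : Set (Sym2 (Fin v)), A.ncard ≤ B.ncard + (symmDiff A B).ncard := by
    intro A B
    have : A ⊆ B ∪ symmDiff A B := by
      intro x hx
      by_cases hb : x ∈ B
      · exact Or.inl hb
      · exact Or.inr (Or.inl ⟨hx, hb⟩)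
    exact (Set.ncard_le_ncard this (Set.toFinite _)).trans (Set.ncard_union_le _ _)
  have h2 := h1 G.edgeSet H.edgeSet
  have h3 := h1 H.edgeSet G.edgeSet
  rw [symmDiff_comm] at h3
  unfold edges dist
  rw [abs_le]
  constructor <;> omega

/-- There is a graph with `m` edges at distance `|m - edges G|` from `G`. -/
theorem exists_dist {v : ℕ} (G : SimpleGraph (Fin v)) (m : ℕ) (hm : m ≤ v.choose 2) :
    ∃ H : SimpleGraph (Fin v), edges H = m ∧ (dist G H : ℤ) = |(m : ℤ) - edges G| := by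
  classical
  rcases le_total m (edges G) with h | h
  · obtain ⟨T, hT1, hT2⟩ : ∃ T ⊆ G.edgeSet, T.ncard = m :=
      Set.exists_subset_card_eq (s := G.edgeSet) h
    have hT3 : (SimpleGraph.fromEdgeSet T).edgeSet = T := by
      rw [SimpleGraph.edgeSet_fromEdgeSet]
      ext e
      simp only [Set.mem_sdiff]
      refine ⟨fun h => h.1, fun h => ⟨h, G.not_isDiag_of_mem_edgeSet (hT1 h)⟩⟩
    refine ⟨SimpleGraph.fromEdgeSet T, ?_, ?_⟩
    · unfold edges
      rw [hT3, hT2]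
    · unfold dist
      rw [hT3]
      have : symmDiff G.edgeSet T = G.edgeSet \ T := by
        rw [symmDiff_def]
        simp only [Set.sup_eq_union, Set.union_eq_left]
        intro x hx
        exact absurd (hT1 hx.1) hx.2
      rw [this, Set.ncard_sdiff hT1, hT2]
      unfold edges at h ⊢
      rw [abs_of_nonpos (by omega)]
      omega
  · obtain ⟨T, hT1, hT1', hT2⟩ : ∃ T, G.edgeSet ⊆ T ∧ T ⊆ (⊤ : SimpleGraph (Fin v)).edgeSet ∧
        T.ncard = m := by
      refine Set.exists_subsuperset_card_eq (SimpleGraph.edgeSet_mono le_top) h ?_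
      change m ≤ edges (⊤ : SimpleGraph (Fin v))
      rw [edges_top]
      exact hm
    have hT3 : (SimpleGraph.fromEdgeSet T).edgeSet = T := by
      rw [SimpleGraph.edgeSet_fromEdgeSet]
      ext e
      simp only [Set.mem_sdiff]
      refine ⟨fun h => h.1, fun h => ⟨h, SimpleGraph.not_isDiag_of_mem_edgeSet _ (hT1' h)⟩⟩
    refine ⟨SimpleGraph.fromEdgeSet T, ?_, ?_⟩
    · unfold edges
      rw [hT3, hT2]
    · unfold dist
      rw [hT3]
      have : symmDiff G.edgeSet T = T \ G.edgeSet := by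
        rw [symmDiff_def]
        simp only [Set.sup_eq_union, Set.union_eq_right]
        intro x hx
        exact absurd (hT1 hx.1) hx.2
      rw [this, Set.ncard_sdiff hT1, hT2]
      unfold edges at h ⊢
      rw [abs_of_nonneg (by omega)]
      omega

/-! ### The property -/

/-- The allowed numbers of edges. -/
def Good (N m : ℤ) : Prop := ∀ k : ℕ, 3 ≤ k → N / 2 ^ k - 1 ≤ |m - (N - 4 * (N / 2 ^ k))|

/-- The property. -/
def P (v : ℕ) : Set (SimpleGraph (Fin v)) :=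
  {G | Good (v.choose 2 : ℕ) (edges G)}

theorem isProperty : IsProperty P := by
  intro v G H h hG
  unfold P at hG ⊢
  simp only [Set.mem_ofPred_eq] at hG ⊢
  rwa [← edges_iso h]

theorem div_le_half (N : ℤ) (hN : 0 ≤ N) {i j : ℕ} (h : i < j) :
    2 * (N / 2 ^ j) ≤ N / 2 ^ i := by
  obtain ⟨t, rfl⟩ : ∃ t, j = i + 1 + t := ⟨j - (i + 1), by omega⟩
  rw [Int.le_ediv_iff_mul_le (by positivity)]
  have h1 : N / 2 ^ (i + 1 + t) * 2 ^ (i + 1 + t) ≤ N := Int.ediv_mul_le _ (by positivity)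
  have h2 : 0 ≤ N / 2 ^ (i + 1 + t) := Int.ediv_nonneg hN (by positivity)
  calc 2 * (N / 2 ^ (i + 1 + t)) * 2 ^ i = N / 2 ^ (i + 1 + t) * 2 ^ (i + 1) := by ring
    _ ≤ N / 2 ^ (i + 1 + t) * 2 ^ (i + 1 + t) := by
        refine mul_le_mul_of_nonneg_left ?_ h2
        exact pow_le_pow_right₀ (by norm_num) (by omega)
    _ ≤ N := h1

/-- The ends of the gaps are allowed. -/
theorem good_upper (N : ℤ) (hN : 0 ≤ N) (j : ℕ) (hd : 1 ≤ N / 2 ^ j) :
    Good N (N - 4 * (N / 2 ^ j) + (N / 2 ^ j - 1)) := by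
  intro k _
  rcases lt_trichotomy k j with h | h | h
  · have := div_le_half N hN h
    rw [le_abs]
    left
    omega
  · subst h
    rw [le_abs]
    left
    omega
  · have := div_le_half N hN h
    rw [le_abs]
    right
    omega

theorem good_lower (N : ℤ) (hN : 0 ≤ N) (j : ℕ) (hd : 1 ≤ N / 2 ^ j) :
    Good N (N - 4 * (N / 2 ^ j) - (N / 2 ^ j - 1)) := by
  intro k _
  rcases lt_trichotomy k j with h | h | h
  · have := div_le_half N hN h
    rw [le_abs]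
    left
    omega
  · subst h
    rw [le_abs]
    right
    omega
  · have := div_le_half N hN h
    rw [le_abs]
    right
    omega

theorem eighth (N : ℤ) (hN : 0 ≤ N) {k : ℕ} (hk : 3 ≤ k) : 8 * (N / 2 ^ k) ≤ N := by
  have h1 : N / 2 ^ k * 2 ^ k ≤ N := Int.ediv_mul_le _ (by positivity)
  have h2 : 0 ≤ N / 2 ^ k := Int.ediv_nonneg hN (by positivity)
  calc 8 * (N / 2 ^ k) = N / 2 ^ k * 2 ^ 3 := by ring
    _ ≤ N / 2 ^ k * 2 ^ k := by
        refine mul_le_mul_of_nonneg_left ?_ h2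
        exact pow_le_pow_right₀ (by norm_num) hk
    _ ≤ N := h1

theorem exists_edges {v : ℕ} (m : ℤ) (h0 : 0 ≤ m) (h1 : m ≤ (v.choose 2 : ℕ)) :
    ∃ G : SimpleGraph (Fin v), (edges G : ℤ) = m := by
  obtain ⟨H, hH, -⟩ := exists_dist (v := v) ⊥ m.toNat (by omega)
  exact ⟨H, by rw [hH]; omega⟩

/-- Main lemma. -/
theorem main (v k : ℕ) (hk : 3 ≤ k) (G : SimpleGraph (Fin v))
    (hd : (1 : ℤ) ≤ ((v.choose 2 : ℕ) : ℤ) / 2 ^ k)
    (hG : (edges G : ℤ) = (v.choose 2 : ℕ) - 4 * (((v.choose 2 : ℕ) : ℤ) / 2 ^ k)) :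
    G ∈ Far ((2 : ℝ)⁻¹ ^ k * (v.choose 2 : ℝ)) (Far ((2 : ℝ)⁻¹ ^ k * (v.choose 2 : ℝ)) (P v)) := by
  intro H hH
  set N : ℤ := ((v.choose 2 : ℕ) : ℤ) with hN
  have hN0 : 0 ≤ N := by rw [hN]; exact Int.natCast_nonneg _
  set δ : ℝ := (2 : ℝ)⁻¹ ^ k * (v.choose 2 : ℝ) with hδ
  have hδN : (N : ℝ) = (v.choose 2 : ℝ) := by rw [hN]; simp
  -- `d_k ≤ δ`
  have hdδ : ((N / 2 ^ k : ℤ) : ℝ) ≤ δ := by
    have h1 : N / 2 ^ k * 2 ^ k ≤ N := Int.ediv_mul_le _ (by positivity)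
    have h2 : ((N / 2 ^ k : ℤ) : ℝ) * 2 ^ k ≤ (N : ℝ) := by exact_mod_cast h1
    rw [hδ, ← hδN, inv_pow, inv_mul_eq_div, le_div_iff₀ (by positivity)]
    exact h2
  -- the distance of `edges H` to any allowed number is at least `δ`
  have key : ∀ m : ℤ, 0 ≤ m → m ≤ N → Good N m → δ ≤ |(m : ℝ) - (edges H : ℝ)| := by
    intro m hm0 hm1 hm
    obtain ⟨K, hK1, hK2⟩ := exists_dist H m.toNat (by omega)
    have hKm : ((edges K : ℕ) : ℤ) = m := by rw [hK1]; omega
    have hKP : K ∈ P v := by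
      change Good _ _
      rw [hKm]
      exact hm
    have h1 := hH K hKP
    have h2 : ((dist H K : ℕ) : ℝ) = |(m : ℝ) - (edges H : ℝ)| := by
      have : ((dist H K : ℤ) : ℝ) = ((|(m : ℤ) - edges H| : ℤ) : ℝ) := by
        rw [hK2]
        congr 3
        omega
      rw [Int.cast_abs, Int.cast_sub] at this
      simpa using this
    rw [← h2]
    exact h1
  -- so `edges H` is not allowed
  have hnot : ¬ Good N (edges H) := by
    intro h
    have h1 := key (edges H) (by omega) (by have := edges_le H; omega) h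
    simp only [Int.cast_natCast, sub_self, abs_zero] at h1
    have : (1 : ℝ) ≤ ((N / 2 ^ k : ℤ) : ℝ) := by exact_mod_cast hd
    linarith
  unfold Good at hnot
  push Not at hnot
  obtain ⟨j, hj3, hj⟩ := hnot
  have hdj : 1 ≤ N / 2 ^ j := by
    have := abs_nonneg ((edges H : ℤ) - (N - 4 * (N / 2 ^ j)))
    omega
  have h8 := eighth N hN0 hj3
  have h8k := eighth N hN0 hk
  have hu := key _ (by omega) (by omega) (good_upper N hN0 j hdj)
  have hl := key _ (by omega) (by omega) (good_lower N hN0 j hdj)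
  have hsub : (|(edges G : ℤ) - edges H| : ℤ) ≤ dist G H := sub_le_dist G H
  have hsub' : |((edges G : ℤ) : ℝ) - (edges H : ℝ)| ≤ (dist G H : ℝ) := by
    have : ((|(edges G : ℤ) - edges H| : ℤ) : ℝ) ≤ ((dist G H : ℤ) : ℝ) := by exact_mod_cast hsub
    rw [Int.cast_abs, Int.cast_sub] at this
    simpa using this
  refine le_trans ?_ hsub'
  rw [hG]
  rw [abs_lt] at hj
  have hj1 : N - 4 * (N / 2 ^ j) - (N / 2 ^ j - 1) < (edges H : ℤ) := by omega
  have hj2 : (edges H : ℤ) < N - 4 * (N / 2 ^ j) + (N / 2 ^ j - 1) := by omega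
  have hj1' : ((N - 4 * (N / 2 ^ j) - (N / 2 ^ j - 1) : ℤ) : ℝ) < (edges H : ℝ) := by
    exact_mod_cast hj1
  have hj2' : (edges H : ℝ) < ((N - 4 * (N / 2 ^ j) + (N / 2 ^ j - 1) : ℤ) : ℝ) := by
    exact_mod_cast hj2
  rw [abs_of_nonpos (by linarith)] at hl
  rw [abs_of_nonneg (by linarith)] at hu
  rcases lt_trichotomy j k with h | h | h
  · -- `j < k`
    have h2 := div_le_half N hN0 h
    have h3 : ((N - 4 * (N / 2 ^ j) + (N / 2 ^ j - 1) : ℤ) : ℝ) ≤
        ((N - 4 * (N / 2 ^ k) : ℤ) : ℝ) := by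
      exact_mod_cast (by omega : N - 4 * (N / 2 ^ j) + (N / 2 ^ j - 1) ≤ N - 4 * (N / 2 ^ k))
    exact le_trans (by linarith) (le_abs_self _)
  · subst h
    exfalso
    have h3 : ((N - 4 * (N / 2 ^ j) + (N / 2 ^ j - 1) : ℤ) : ℝ) -
        ((N - 4 * (N / 2 ^ j) - (N / 2 ^ j - 1) : ℤ) : ℝ) = 2 * ((N / 2 ^ j : ℤ) : ℝ) - 2 := by
      push_cast
      ring
    linarith
  · exfalso
    have h2 := div_le_half N hN0 h
    have h3 : ((N - 4 * (N / 2 ^ j) + (N / 2 ^ j - 1) : ℤ) : ℝ) -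
        ((N - 4 * (N / 2 ^ j) - (N / 2 ^ j - 1) : ℤ) : ℝ) = 2 * ((N / 2 ^ j : ℤ) : ℝ) - 2 := by
      push_cast
      ring
    have h4 : ((N / 2 ^ j : ℤ) : ℝ) ≤ ((N / 2 ^ k : ℤ) : ℝ) := by
      exact_mod_cast (by omega : N / 2 ^ j ≤ N / 2 ^ k)
    linarith

theorem lower_bound (v k : ℕ) (hk : 3 ≤ k) (G : SimpleGraph (Fin v))
    (hG : (edges G : ℤ) = (v.choose 2 : ℕ) - 4 * (((v.choose 2 : ℕ) : ℤ) / 2 ^ k))
    (H : SimpleGraph (Fin v)) (hH : H ∈ P v) :
    (2 : ℝ)⁻¹ ^ k * (v.choose 2 : ℝ) - 2 < (dist G H : ℝ) := by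
  set N : ℤ := ((v.choose 2 : ℕ) : ℤ) with hN
  have hδN : (N : ℝ) = (v.choose 2 : ℝ) := by rw [hN]; simp
  have h1 : N / 2 ^ k - 1 ≤ |(edges H : ℤ) - (N - 4 * (N / 2 ^ k))| := hH k hk
  rw [← hG, abs_sub_comm] at h1
  have h2 := h1.trans (sub_le_dist G H)
  have h3 : N < (N / 2 ^ k + 1) * 2 ^ k := Int.lt_ediv_add_one_mul_self _ (by positivity)
  have h4 : (N : ℝ) < (((N / 2 ^ k : ℤ) : ℝ) + 1) * 2 ^ k := by exact_mod_cast h3
  have h5 : (2 : ℝ)⁻¹ ^ k * (v.choose 2 : ℝ) < ((N / 2 ^ k : ℤ) : ℝ) + 1 := by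
    rw [← hδN, inv_pow, inv_mul_eq_div, div_lt_iff₀ (by positivity)]
    exact h4
  have h6 : ((N / 2 ^ k : ℤ) : ℝ) - 1 ≤ (dist G H : ℝ) := by exact_mod_cast h2
  linarith

theorem choose_two_ge (v : ℕ) : v ≤ v.choose 2 + 1 := by
  induction v with
  | zero => omega
  | succ n ih =>
    have : (n + 1).choose 2 = n.choose 1 + n.choose 2 := Nat.choose_succ_succ' n 1
    rw [this, Nat.choose_one_right]
    rcases Nat.eq_zero_or_pos n with h | h
    · subst h; simp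
    · omega

/-- There is a graph property `P` such that for every `k ≥ 3`, with `ε = 2^{-k}` and
`δ = ε C(v,2)`, for every `α < 1` and all large `v` some graph in `F_δ(F_δ(P_v))` has distance
more than `α δ` from `P_v` (and `P_v` is not empty, and neither is `F_δ(P_v)` if `k ≥ 4`). In
particular the dual problem of `P` does not reduce to tolerant testing. -/
theorem result : ∃ P : ∀ v : ℕ, Set (SimpleGraph (Fin v)), IsProperty P ∧
    ¬ DualReducesToTolerant P ∧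
    ∀ k : ℕ, 3 ≤ k → ∀ α : ℝ, α < 1 → ∃ v₀ : ℕ, ∀ v ≥ v₀,
      (P v).Nonempty ∧
      (4 ≤ k → (Far ((2 : ℝ)⁻¹ ^ k * (v.choose 2 : ℝ)) (P v)).Nonempty) ∧
      ∃ G ∈ Far ((2 : ℝ)⁻¹ ^ k * (v.choose 2 : ℝ)) (Far ((2 : ℝ)⁻¹ ^ k * (v.choose 2 : ℝ)) (P v)),
        ∀ H ∈ P v, α * ((2 : ℝ)⁻¹ ^ k * (v.choose 2 : ℝ)) < (dist G H : ℝ) := by
  have hmain : ∀ k : ℕ, 3 ≤ k → ∀ α : ℝ, α < 1 → ∃ v₀ : ℕ, ∀ v ≥ v₀,
      (P v).Nonempty ∧
      (4 ≤ k → (Far ((2 : ℝ)⁻¹ ^ k * (v.choose 2 : ℝ)) (P v)).Nonempty) ∧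
      ∃ G ∈ Far ((2 : ℝ)⁻¹ ^ k * (v.choose 2 : ℝ)) (Far ((2 : ℝ)⁻¹ ^ k * (v.choose 2 : ℝ)) (P v)),
        ∀ H ∈ P v, α * ((2 : ℝ)⁻¹ ^ k * (v.choose 2 : ℝ)) < (dist G H : ℝ) := by
    intro k hk α hα
    obtain ⟨n, hn⟩ := exists_nat_gt (2 / (1 - α) * 2 ^ k)
    refine ⟨max (n + 1) (2 ^ k * 32 + 1), fun v hv => ?_⟩
    have hv1 : n + 1 ≤ v := (le_max_left _ _).trans hv
    have hv2 : 2 ^ k * 32 + 1 ≤ v := (le_max_right _ _).trans hv
    have hc := choose_two_ge v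
    set N : ℤ := ((v.choose 2 : ℕ) : ℤ) with hN
    have hδN : (N : ℝ) = (v.choose 2 : ℝ) := by rw [hN]; simp
    have hN0 : 0 ≤ N := by rw [hN]; exact Int.natCast_nonneg _
    have hN32 : (2 : ℤ) ^ k * 32 ≤ N := by
      have : 2 ^ k * 32 ≤ v.choose 2 := by omega
      rw [hN]
      exact_mod_cast this
    have hd : 1 ≤ N / 2 ^ k := by
      rw [Int.le_ediv_iff_mul_le (by positivity)]
      have : (0 : ℤ) ≤ 2 ^ k := by positivity
      linarith
    have h8 := eighth N hN0 hk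
    refine ⟨?_, ?_, ?_⟩
    · obtain ⟨G, hG⟩ := exists_edges (v := v) (N - 4 * (N / 2 ^ k) + (N / 2 ^ k - 1))
        (by omega) (by omega)
      refine ⟨G, ?_⟩
      change Good _ _
      rw [hG]
      exact good_upper N hN0 k hd
    · intro hk4
      obtain ⟨G, hG⟩ := exists_edges (v := v) (N - 4 * (N / 2 ^ 3))
        (by omega) (by omega)
      refine ⟨G, fun H hH => ?_⟩
      have h1 := lower_bound v 3 le_rfl G hG H hH
      have h2 : (2 : ℝ)⁻¹ ^ k ≤ (2 : ℝ)⁻¹ ^ 4 :=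
        pow_le_pow_of_le_one (by norm_num) (by norm_num) hk4
      have h3 : (0 : ℝ) ≤ (v.choose 2 : ℝ) := by positivity
      have h4 : (2 : ℝ)⁻¹ ^ k * (v.choose 2 : ℝ) ≤ (2 : ℝ)⁻¹ ^ 4 * (v.choose 2 : ℝ) :=
        mul_le_mul_of_nonneg_right h2 h3
      have h5 : (32 : ℝ) ≤ (v.choose 2 : ℝ) := by
        have h6 : (32 : ℤ) ≤ N := by
          have : (1 : ℤ) ≤ 2 ^ k := one_le_pow₀ (by norm_num)
          linarith
        rw [← hδN]
        exact_mod_cast h6
      norm_num at h1 h4 ⊢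
      linarith
    · obtain ⟨G, hG⟩ := exists_edges (v := v) (N - 4 * (N / 2 ^ k))
        (by omega) (by omega)
      refine ⟨G, main v k hk G hd hG, fun H hH => ?_⟩
      have h1 := lower_bound v k hk G hG H hH
      have h2 : 2 / (1 - α) * 2 ^ k < (v.choose 2 : ℝ) := by
        have : (n : ℝ) ≤ (v.choose 2 : ℝ) := by
          have : n ≤ v.choose 2 := by omega
          exact_mod_cast this
        linarith
      have h3 : 2 < (1 - α) * ((2 : ℝ)⁻¹ ^ k * (v.choose 2 : ℝ)) := by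
        have h4 : 0 < 1 - α := by linarith
        have h5 : (2 / (1 - α) * 2 ^ k) * ((1 - α) * (2 : ℝ)⁻¹ ^ k) <
            (v.choose 2 : ℝ) * ((1 - α) * (2 : ℝ)⁻¹ ^ k) :=
          mul_lt_mul_of_pos_right h2 (by positivity)
        have h6 : (2 / (1 - α) * 2 ^ k) * ((1 - α) * (2 : ℝ)⁻¹ ^ k) = 2 := by
          have : (2 : ℝ) ^ k * (2 : ℝ)⁻¹ ^ k = 1 := by
            rw [← mul_pow]
            norm_num
          calc (2 / (1 - α) * 2 ^ k) * ((1 - α) * (2 : ℝ)⁻¹ ^ k)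
              = (2 / (1 - α) * (1 - α)) * (2 ^ k * (2 : ℝ)⁻¹ ^ k) := by ring
            _ = 2 := by rw [this, mul_one, div_mul_cancel₀ _ h4.ne']
        linarith
      linarith
  refine ⟨P, isProperty, ?_, hmain⟩
  rintro ⟨ε₀, hε₀, h⟩
  obtain ⟨k, hk⟩ := exists_pow_lt_of_lt_one hε₀ (show (2 : ℝ)⁻¹ < 1 by norm_num)
  have hk' : (2 : ℝ)⁻¹ ^ (k + 3) ≤ ε₀ :=
    (pow_le_pow_of_le_one (by norm_num) (by norm_num) (by omega)).trans hk.le
  obtain ⟨α, hα, v₀, hv₀⟩ := h ((2 : ℝ)⁻¹ ^ (k + 3)) (by positivity) hk'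
  obtain ⟨v₁, hv₁⟩ := hmain (k + 3) (by omega) α hα
  obtain ⟨-, -, G, hG1, hG2⟩ := hv₁ (max v₀ v₁) (le_max_right _ _)
  obtain ⟨H, hH1, hH2⟩ := hv₀ (max v₀ v₁) (le_max_left _ _) hG1
  exact absurd hH2 (not_le.mpr (hG2 H hH1))

end Pool.Agent.Results.MP_cccbef_lc.DualNotTolerant
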